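import Pool.Agent.R234.GR.Defs

set_option autoImplicit false

open MeasureTheory Filter Topology Metric Set Real
open scoped ENNReal

namespace Pool.Agent.R234.GR

variable {E : Type*} [NormedAddCommGroup E] [NormedSpace ℂ E]

/-- the germ version -/
structure NegPshAt (u : E → EReal) (z : E) : Prop where
  neg : u z < 0
  usc : ∀ y, u z < y → ∀ᶠ w in 𝓝 z, u w < y
  submean : ∀ f : ℂ → E, AnalyticAt ℂ f 0 → f 0 = z → ∀ᶠ r in 𝓝[>] (0 : ℝ), SubMean u f r

lemma NegPsh.at {Ω : Set E} (hΩ : IsOpen Ω) {u : E → EReal} (hu : NegPsh Ω u) {z : E}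
    (hz : z ∈ Ω) : NegPshAt u z where
  neg := hu.neg z hz
  usc := fun y hy => by
    have := hu.usc z hz y hy
    rwa [hΩ.nhdsWithin_eq hz] at this
  submean := fun f hf h0 => hu.submean f hf (h0 ▸ hz)

lemma NegPsh.of_at {Ω : Set E} {u : E → EReal} (h : ∀ z ∈ Ω, NegPshAt u z) : NegPsh Ω u where
  neg := fun z hz => (h z hz).neg
  usc := fun z hz y hy => nhdsWithin_le_nhds ((h z hz).usc y hy)
  submean := fun f hf h0 => (h _ h0).submean f hf rfl

omit [NormedSpace ℂ E] in
/-- small circles are mapped into a given neighbourhood -/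
lemma eventually_circle {f : ℂ → E} (hf : ContinuousAt f 0) {p : E → Prop}
    (hp : ∀ᶠ w in 𝓝 (f 0), p w) :
    ∀ᶠ r in 𝓝[>] (0 : ℝ), ∀ θ : ℝ, p (f (circleMap 0 r θ)) := by
  obtain ⟨s, hs, hs'⟩ := Metric.eventually_nhds_iff_ball.mp (hf.eventually hp)
  have h1 : ∀ᶠ r in 𝓝[>] (0 : ℝ), r < s := nhdsWithin_le_nhds (gt_mem_nhds hs)
  filter_upwards [h1, self_mem_nhdsWithin] with r hr hr0 θ
  apply hs'
  have hr0 : 0 < r := hr0
  rw [mem_ball_zero_iff, norm_circleMap_zero, abs_of_pos hr0]
  exact hr

lemma NegPshAt.congr {u v : E → EReal} {z : E} (h : NegPshAt u z) (huv : ∀ᶠ w in 𝓝 z, u w = v w) :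
    NegPshAt v z where
  neg := by rw [← huv.self_of_nhds]; exact h.neg
  usc := fun y hy => by
    rw [← huv.self_of_nhds] at hy
    filter_upwards [h.usc y hy, huv] with w h1 h2
    rwa [← h2]
  submean := fun f hf h0 => by
    subst h0
    filter_upwards [h.submean f hf rfl, eventually_circle hf.continuousAt huv] with r h1 h2
    unfold SubMean at h1 ⊢
    rw [← huv.self_of_nhds]
    simp only [← h2]
    exact h1

omit [NormedAddCommGroup E] [NormedSpace ℂ E] in
lemma subMean_max {u v : E → EReal} {f : ℂ → E} {r : ℝ} (hu : SubMean u f r)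
    (hv : SubMean v f r) : SubMean (fun z => max (u z) (v z)) f r := by
  unfold SubMean at *
  have hmono : Monotone EReal.toENNReal := fun a b h => EReal.toENNReal_le_toENNReal h
  beta_reduce
  rcases le_total (u (f 0)) (v (f 0)) with h | h
  · rw [max_eq_right h]
    refine le_trans (lintegral_mono fun θ => ?_) hv
    exact hmono (EReal.neg_le_neg_iff.mpr (le_max_right _ _))
  · rw [max_eq_left h]
    refine le_trans (lintegral_mono fun θ => ?_) hu
    exact hmono (EReal.neg_le_neg_iff.mpr (le_max_left _ _))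

lemma NegPshAt.max {u v : E → EReal} {z : E} (hu : NegPshAt u z) (hv : NegPshAt v z) :
    NegPshAt (fun z => max (u z) (v z)) z where
  neg := max_lt hu.neg hv.neg
  usc := fun y hy => by
    filter_upwards [hu.usc y ((le_max_left _ _).trans_lt hy),
      hv.usc y ((le_max_right _ _).trans_lt hy)] with w h1 h2
    exact max_lt h1 h2
  submean := fun f hf h0 => by
    filter_upwards [hu.submean f hf h0, hv.submean f hf h0] with r h1 h2
    exact subMean_max h1 h2

/-- composition with a holomorphic map -/
lemma NegPshAt.comp {u : E → EReal} {F : E → E} {z : E} (hF : AnalyticAt ℂ F z)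
    (hu : NegPshAt u (F z)) : NegPshAt (fun w => u (F w)) z where
  neg := hu.neg
  usc := fun y hy => hF.continuousAt.eventually (hu.usc y hy)
  submean := fun f hf h0 => by
    subst h0
    exact hu.submean (fun ζ => F (f ζ)) (AnalyticAt.fun_comp hF hf) rfl

lemma toENNReal_neg_sub {x : EReal} (hx : x < 0) {η : ℝ} (hη : 0 ≤ η) :
    (-(x - (η : EReal))).toENNReal = (-x).toENNReal + ENNReal.ofReal η := by
  have h1 : -(x - (η : EReal)) = -x + (η : EReal) := by
    rw [EReal.neg_sub (by simp) (by simp)]
  rw [h1, EReal.toENNReal_add (by rw [EReal.le_neg]; simpa using hx.le) (by exact_mod_cast hη)]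
  simp

/-- subtracting a constant -/
lemma NegPshAt.sub_const {u : E → EReal} {z : E} (hu : NegPshAt u z) {η : ℝ} (hη : 0 ≤ η) :
    NegPshAt (fun w => u w - (η : EReal)) z where
  neg := by
    refine lt_of_le_of_lt ?_ hu.neg
    rw [EReal.sub_le_iff_le_add (by simp) (by simp)]
    exact le_add_of_nonneg_right (by exact_mod_cast hη)
  usc := fun y hy => by
    have h1 : u z < y + (η : EReal) := by
      rwa [EReal.sub_lt_iff (by simp) (by simp)] at hy
    filter_upwards [hu.usc _ h1] with w hw
    rwa [EReal.sub_lt_iff (by simp) (by simp)]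
  submean := fun f hf h0 => by
    subst h0
    filter_upwards [hu.submean f hf rfl,
      eventually_circle hf.continuousAt (hu.usc 0 hu.neg)] with r h1 h2
    unfold SubMean at h1 ⊢
    rw [toENNReal_neg_sub hu.neg hη]
    have h3 : ∀ θ, (-(u (f (circleMap 0 r θ)) - (η : EReal))).toENNReal =
        (-(u (f (circleMap 0 r θ)))).toENNReal + ENNReal.ofReal η := fun θ =>
      toENNReal_neg_sub (h2 θ) hη
    simp only [h3]
    rw [lintegral_add_right _ measurable_const, lintegral_const, mul_add,
      Measure.restrict_apply_univ, Real.volume_Ioc, sub_zero, mul_comm (ENNReal.ofReal η)]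
    exact add_le_add h1 le_rfl

/-- positive multiples of real functions -/
lemma NegPshAt.const_mul {ρ : E → ℝ} {z : E} (hu : NegPshAt (fun w => (ρ w : EReal)) z) {A : ℝ}
    (hA : 0 < A) : NegPshAt (fun w => ((A * ρ w : ℝ) : EReal)) z where
  neg := by
    have h := hu.neg
    have h1 : ρ z < 0 := by exact_mod_cast h
    have h2 : A * ρ z < 0 := mul_neg_of_pos_of_neg hA h1
    exact_mod_cast h2
  usc := fun y hy => by
    induction y with
    | bot => simp at hy
    | top => exact Eventually.of_forall fun w => EReal.coe_lt_top _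
    | coe y =>
      have h1 : A * ρ z < y := by exact_mod_cast hy
      have h2 : ρ z < y / A := by rwa [lt_div_iff₀ hA, mul_comm]
      have h3 := hu.usc ((y / A : ℝ) : EReal) (by exact_mod_cast h2)
      filter_upwards [h3] with w hw
      have h4 : ρ w < y / A := by exact_mod_cast hw
      rw [lt_div_iff₀ hA, mul_comm] at h4
      exact_mod_cast h4
  submean := fun f hf h0 => by
    filter_upwards [hu.submean f hf h0] with r h1
    unfold SubMean at h1 ⊢
    have h3 : ∀ x : ℝ, (-((A * x : ℝ) : EReal)).toENNReal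
        = ENNReal.ofReal A * (-(x : EReal)).toENNReal := by
      intro x
      rw [← EReal.coe_neg, ← EReal.coe_neg, EReal.toENNReal_of_ne_top (EReal.coe_ne_top _),
        EReal.toENNReal_of_ne_top (EReal.coe_ne_top _), EReal.toReal_coe, EReal.toReal_coe,
        ← ENNReal.ofReal_mul hA.le]
      congr 1; ring
    simp only [h3]
    rw [lintegral_const_mul' _ _ (by simp)]
    calc _ ≤ ENNReal.ofReal A * (ENNReal.ofReal (2 * π) * (-(ρ (f 0) : EReal)).toENNReal) := by
          gcongr
      _ = _ := by ring

end Pool.Agent.R234.GR
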