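import Pool.Agent.R234.GR.A

set_option autoImplicit false
set_option linter.unusedSectionVars false

open MeasureTheory Filter Topology Metric Set Real
open scoped ENNReal

namespace Pool.Agent.R234.GR

lemma submean_log {H : ℂ → ℂ} (hH : AnalyticAt ℂ H 0) (h0 : H 0 ≠ 0) (h1 : ‖H 0‖ < 1) :
    ∀ᶠ r in 𝓝[>] (0 : ℝ), (∀ θ, H (circleMap 0 r θ) ≠ 0) ∧
      ∫⁻ θ in Ioc 0 (2 * π), ENNReal.ofReal (-Real.log ‖H (circleMap 0 r θ)‖) ≤
        ENNReal.ofReal (2 * π) * ENNReal.ofReal (-Real.log ‖H 0‖) := by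
  have e1 : ∀ᶠ ζ in 𝓝 (0 : ℂ), AnalyticAt ℂ H ζ := hH.eventually_analyticAt
  have e2 : ∀ᶠ ζ in 𝓝 (0 : ℂ), H ζ ≠ 0 := hH.continuousAt.eventually_ne h0
  have e3 : ∀ᶠ ζ in 𝓝 (0 : ℂ), ‖H ζ‖ < 1 :=
    hH.continuousAt.norm.eventually (gt_mem_nhds h1)
  obtain ⟨s, hs, hs'⟩ := Metric.eventually_nhds_iff_ball.mp (e1.and (e2.and e3))
  have h2 : ∀ᶠ r in 𝓝[>] (0 : ℝ), r < s := nhdsWithin_le_nhds (gt_mem_nhds hs)
  filter_upwards [h2, self_mem_nhdsWithin] with r hr hr0
  have hr0 : 0 < r := hr0
  have hmem : ∀ θ, circleMap 0 r θ ∈ ball (0 : ℂ) s := by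
    intro θ
    rw [mem_ball_zero_iff, norm_circleMap_zero, abs_of_pos hr0]; exact hr
  refine ⟨fun θ => (hs' _ (hmem θ)).2.1, ?_⟩
  have hharm : InnerProductSpace.HarmonicOnNhd (fun ζ => Real.log ‖H ζ‖) (closedBall 0 |r|) := by
    intro ζ hζ
    rw [abs_of_pos hr0] at hζ
    have := hs' ζ (closedBall_subset_ball hr hζ)
    exact this.1.harmonicAt_log_norm this.2.1
  have hav := hharm.circleAverage_eq
  have hcont : Continuous (fun θ : ℝ => Real.log ‖H (circleMap 0 r θ)‖) := by
    rw [continuous_iff_continuousAt]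
    intro θ
    have h3 := hs' _ (hmem θ)
    have h4 : ContinuousAt (fun ζ => Real.log ‖H ζ‖) (circleMap 0 r θ) :=
      (h3.1.continuousAt.norm).log (norm_ne_zero_iff.mpr h3.2.1)
    exact ContinuousAt.comp (f := circleMap 0 r) h4 (continuous_circleMap 0 r).continuousAt
  have hint : Integrable (fun θ : ℝ => -Real.log ‖H (circleMap 0 r θ)‖)
      (volume.restrict (Ioc 0 (2 * π))) := by
    have := (hcont.neg.intervalIntegrable (μ := volume) 0 (2 * π)).1
    exact this
  rw [← ofReal_integral_eq_lintegral_ofReal hint, ← ENNReal.ofReal_mul (by positivity)]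
  · apply le_of_eq
    congr 1
    rw [integral_neg, ← intervalIntegral.integral_of_le (by positivity)]
    unfold Real.circleAverage at hav
    rw [smul_eq_mul, inv_mul_eq_iff_eq_mul₀ (by positivity)] at hav
    rw [hav]; ring
  · apply Eventually.of_forall
    intro θ
    have h3 := hs' _ (hmem θ)
    have : Real.log ‖H (circleMap 0 r θ)‖ ≤ 0 := Real.log_nonpos (norm_nonneg _) h3.2.2.le
    simp only [Pi.zero_apply]
    linarith

variable {E : Type*} [NormedAddCommGroup E] [InnerProductSpace ℂ E]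

/-- the product of the normalised distances to the poles -/
noncomputable def Q {N : ℕ} (a : Fin N → E) (R : ℝ) (z : E) : ℝ := ∏ j, (‖z - a j‖ / R)

/-- its logarithm -/
noncomputable def L {N : ℕ} (a : Fin N → E) (R : ℝ) (z : E) : EReal :=
  ENNReal.log (ENNReal.ofReal (Q a R z))

lemma continuous_Q {N : ℕ} (a : Fin N → E) (R : ℝ) : Continuous (Q a R) := by
  unfold Q
  fun_prop

lemma continuous_L {N : ℕ} (a : Fin N → E) (R : ℝ) : Continuous (L a R) :=
  ENNReal.continuous_log.comp (ENNReal.continuous_ofReal.comp (continuous_Q a R))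

lemma L_of_pos {N : ℕ} {a : Fin N → E} {R : ℝ} {z : E} (h : 0 < Q a R z) :
    L a R z = ((Real.log (Q a R z) : ℝ) : EReal) := ENNReal.log_ofReal_of_pos h

lemma le_L {N : ℕ} {a : Fin N → E} {R : ℝ} {z : E} {q : ℝ} (hq : 0 < q) (h : q ≤ Q a R z) :
    ((Real.log q : ℝ) : EReal) ≤ L a R z := by
  rw [L_of_pos (hq.trans_le h)]
  exact_mod_cast Real.log_le_log hq h

lemma L_le {N : ℕ} {a : Fin N → E} {R : ℝ} {z : E} {q : ℝ} (hq : 0 < q) (h : Q a R z ≤ q) :
    L a R z ≤ ((Real.log q : ℝ) : EReal) := by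
  rw [← ENNReal.log_ofReal_of_pos hq]
  exact ENNReal.log_monotone (ENNReal.ofReal_le_ofReal h)

lemma L_negPshAt {N : ℕ} (a : Fin N → E) {R : ℝ} (hR : 0 < R) {z : E} (hz : Q a R z < 1) :
    NegPshAt (L a R) z where
  neg := by
    have h1 : ENNReal.ofReal (Q a R z) < 1 := by
      rw [← ENNReal.ofReal_one]; exact (ENNReal.ofReal_lt_ofReal_iff one_pos).mpr hz
    have := ENNReal.log_strictMono h1
    rwa [ENNReal.log_one] at this
  usc := fun y hy => (continuous_L a R).continuousAt.eventually (gt_mem_nhds hy)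
  submean := fun f hf h0 => by
    have hQ0 : 0 ≤ Q a R z := Finset.prod_nonneg fun j _ => div_nonneg (norm_nonneg _) hR.le
    rcases hQ0.eq_or_lt with h | h
    · apply Eventually.of_forall
      intro r
      unfold SubMean
      have : L a R (f 0) = ⊥ := by
        rw [h0, L, ← h, ENNReal.ofReal_zero, ENNReal.log_zero]
      rw [this]
      simp only [EReal.neg_bot, EReal.toENNReal_top]
      rw [ENNReal.mul_top]
      · exact le_top
      · simpa using Real.pi_pos
    · -- the scalar minorant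
      have hne : ∀ j, z - a j ≠ 0 := by
        intro j hj
        have : Q a R z = 0 := by
          unfold Q
          apply Finset.prod_eq_zero (Finset.mem_univ j)
          rw [hj, norm_zero, zero_div]
        linarith
      set H : ℂ → ℂ := fun ζ => ∏ j, (inner ℂ (z - a j) (f ζ - a j) / ((‖z - a j‖ * R : ℝ) : ℂ))
        with hHdef
      have hHan : AnalyticAt ℂ H 0 := by
        rw [hHdef]
        apply Finset.analyticAt_fun_prod
        intro j _
        apply AnalyticAt.div_const
        have h1 : AnalyticAt ℂ (fun ζ => f ζ - a j) 0 := hf.sub analyticAt_const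
        exact ((innerSL ℂ (z - a j)).analyticAt _).comp h1
      have hterm : ∀ ζ j, ‖inner ℂ (z - a j) (f ζ - a j) / ((‖z - a j‖ * R : ℝ) : ℂ)‖
          ≤ ‖f ζ - a j‖ / R := by
        intro ζ j
        have hp : 0 < ‖z - a j‖ := norm_pos_iff.mpr (hne j)
        rw [norm_div, Complex.norm_real, Real.norm_of_nonneg (by positivity),
          div_le_div_iff₀ (by positivity) hR]
        have := norm_inner_le_norm (𝕜 := ℂ) (z - a j) (f ζ - a j)
        nlinarith
      have hHle : ∀ ζ, ‖H ζ‖ ≤ Q a R (f ζ) := by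
        intro ζ
        rw [hHdef]
        simp only [norm_prod]
        exact Finset.prod_le_prod (fun j _ => norm_nonneg _) (fun j _ => hterm ζ j)
      have hH0 : ‖H 0‖ = Q a R z := by
        rw [hHdef]
        simp only [norm_prod]
        unfold Q
        apply Finset.prod_congr rfl
        intro j _
        have hp : 0 < ‖z - a j‖ := norm_pos_iff.mpr (hne j)
        rw [h0, norm_div, Complex.norm_real, Real.norm_of_nonneg (by positivity),
          inner_self_eq_norm_sq_to_K, norm_pow]
        simp only [RCLike.norm_ofReal, abs_norm]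
        field_simp
      have hH00 : H 0 ≠ 0 := by
        rw [← norm_pos_iff, hH0]; exact h
      filter_upwards [submean_log hHan hH00 (by rw [hH0]; exact hz)] with r hr
      obtain ⟨hr1, hr2⟩ := hr
      unfold SubMean
      have hL0 : (-(L a R (f 0))).toENNReal = ENNReal.ofReal (-Real.log ‖H 0‖) := by
        rw [h0, L_of_pos h, hH0, ← EReal.coe_neg, EReal.toENNReal_of_ne_top (EReal.coe_ne_top _),
          EReal.toReal_coe]
      rw [hL0]
      refine le_trans (lintegral_mono fun θ => ?_) hr2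
      have h5 := le_L (norm_pos_iff.mpr (hr1 θ)) (hHle (circleMap 0 r θ))
      have h6 := EReal.toENNReal_le_toENNReal (EReal.neg_le_neg_iff.mpr h5)
      refine h6.trans (le_of_eq ?_)
      rw [← EReal.coe_neg, EReal.toENNReal_of_ne_top (EReal.coe_ne_top _), EReal.toReal_coe]

end Pool.Agent.R234.GR
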