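import Pool.Agent.R234.GR.B

set_option autoImplicit false
set_option linter.unusedSectionVars false

open MeasureTheory Filter Topology Metric Set Real
open scoped ENNReal

namespace Pool.Agent.R234.GR

variable {E : Type*} [NormedAddCommGroup E] [InnerProductSpace ℂ E]

/-- the standing data: an open set with an exhaustion and constants -/
structure Dat (Ω : Set E) (N : ℕ) (ρ : E → ℝ) (R δ A : ℝ) : Prop where
  isOpen : IsOpen Ω
  N_pos : 1 ≤ N
  R_pos : 0 < R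
  diam : ∀ z ∈ Ω, ∀ w ∈ Ω, ‖z - w‖ < R
  zero_mem : (0 : E) ∈ Ω
  δ_pos : 0 < δ
  ball_sub : closedBall (0 : E) (2 * δ) ⊆ Ω
  ρ_cont : ContinuousOn ρ Ω
  ρ_psh : NegPsh Ω (fun z => (ρ z : EReal))
  ρ_cpt : ∀ c : ℝ, c < 0 → IsCompact {z | z ∈ Ω ∧ ρ z ≤ c}
  A_pos : 0 < A
  hA : ∀ w ∈ closedBall (0 : E) (2 * δ), A * ρ w < Real.log ((δ / (2 * R)) ^ N)

/-- the poles are close to the origin -/
structure Near (Ω : Set E) {N : ℕ} (a : Fin N → E) (δ : ℝ) : Prop where
  mem : ∀ j, a j ∈ Ω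
  small : ∀ j, ‖a j‖ ≤ δ / 2

open Classical in
/-- the barrier -/
noncomputable def barrier {N : ℕ} (a : Fin N → E) (ρ : E → ℝ) (R δ A : ℝ) (z : E) : EReal :=
  if ‖z‖ < δ then L a R z else max (L a R z) ((A * ρ z : ℝ) : EReal)

section
variable {Ω : Set E} {N : ℕ} {ρ : E → ℝ} {R δ A : ℝ} {a : Fin N → E}

lemma Q_lt_one (D : Dat Ω N ρ R δ A) (ha : Near Ω a δ) {z : E} (hz : z ∈ Ω) : Q a R z < 1 := by
  have h1 : ∀ j, ‖z - a j‖ / R < 1 := fun j => by
    rw [div_lt_one D.R_pos]; exact D.diam z hz _ (ha.mem j)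
  have hN := D.N_pos
  have j₀ : Fin N := ⟨0, by omega⟩
  unfold Q
  rw [← Finset.mul_prod_erase Finset.univ _ (Finset.mem_univ j₀)]
  have h2 : ∏ x ∈ Finset.univ.erase j₀, ‖z - a x‖ / R ≤ 1 :=
    Finset.prod_le_one (fun j _ => div_nonneg (norm_nonneg _) D.R_pos.le) (fun j _ => (h1 j).le)
  have h3 : 0 ≤ ‖z - a j₀‖ / R := div_nonneg (norm_nonneg _) D.R_pos.le
  calc ‖z - a j₀‖ / R * ∏ x ∈ Finset.univ.erase j₀, ‖z - a x‖ / R
      ≤ ‖z - a j₀‖ / R * 1 := by gcongr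
    _ < 1 := by rw [mul_one]; exact h1 j₀

lemma L_le_barrier (z : E) : L a R z ≤ barrier a ρ R δ A z := by
  unfold barrier
  split_ifs
  · exact le_rfl
  · exact le_max_left _ _

lemma rho_le_barrier {z : E} (hz : δ ≤ ‖z‖) : ((A * ρ z : ℝ) : EReal) ≤ barrier a ρ R δ A z := by
  unfold barrier
  rw [if_neg (not_lt.mpr hz)]
  exact le_max_right _ _

/-- inside the ball of radius `2δ` the barrier is `L` -/
lemma barrier_eq (D : Dat Ω N ρ R δ A) (ha : Near Ω a δ) {z : E} (hz : ‖z‖ < 2 * δ) :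
    barrier a ρ R δ A z = L a R z := by
  unfold barrier
  split_ifs with h
  · rfl
  · apply max_eq_left
    have h1 := D.hA z (by rw [mem_closedBall_zero_iff]; exact hz.le)
    have hR := D.R_pos
    have hδ := D.δ_pos
    have h2 : (δ / (2 * R)) ^ N ≤ Q a R z := by
      unfold Q
      have h3 : ∏ _j : Fin N, (δ / (2 * R)) = (δ / (2 * R)) ^ N := by
        rw [Finset.prod_const, Finset.card_univ, Fintype.card_fin]
      rw [← h3]
      apply Finset.prod_le_prod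
      · intro j _; positivity
      · intro j _
        have h4 := ha.small j
        have h5 := norm_sub_norm_le z (a j)
        rw [div_le_div_iff₀ (by positivity) hR]
        nlinarith
    refine le_trans ?_ (le_L (by positivity) h2)
    exact_mod_cast h1.le

lemma barrier_negPshAt (D : Dat Ω N ρ R δ A) (ha : Near Ω a δ) {z : E} (hz : z ∈ Ω) :
    NegPshAt (barrier a ρ R δ A) z := by
  have hL := L_negPshAt a D.R_pos (Q_lt_one D ha hz)
  rcases lt_or_ge ‖z‖ (2 * δ) with h | h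
  · refine hL.congr ?_
    have : ∀ᶠ w in 𝓝 z, ‖w‖ < 2 * δ := continuous_norm.continuousAt.eventually (gt_mem_nhds h)
    filter_upwards [this] with w hw
    exact (barrier_eq D ha hw).symm
  · refine (hL.max ((D.ρ_psh.at D.isOpen hz).const_mul D.A_pos)).congr ?_
    have hδ := D.δ_pos
    have : ∀ᶠ w in 𝓝 z, δ < ‖w‖ :=
      continuous_norm.continuousAt.eventually (lt_mem_nhds (by linarith))
    filter_upwards [this] with w hw
    unfold barrier
    rw [if_neg (not_lt.mpr hw.le)]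

lemma Q_le_of_pole (D : Dat Ω N ρ R δ A) (ha : Near Ω a δ) (j : Fin N) {z : E} (hz : z ∈ Ω) :
    Q a R z ≤ ‖z - a j‖ / R := by
  have h1 : ∀ j, ‖z - a j‖ / R < 1 := fun j => by
    rw [div_lt_one D.R_pos]; exact D.diam z hz _ (ha.mem j)
  unfold Q
  rw [← Finset.mul_prod_erase Finset.univ _ (Finset.mem_univ j)]
  have h2 : ∏ x ∈ Finset.univ.erase j, ‖z - a x‖ / R ≤ 1 :=
    Finset.prod_le_one (fun j _ => div_nonneg (norm_nonneg _) D.R_pos.le) (fun j _ => (h1 j).le)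
  have h3 : 0 ≤ ‖z - a j‖ / R := div_nonneg (norm_nonneg _) D.R_pos.le
  calc ‖z - a j‖ / R * ∏ x ∈ Finset.univ.erase j, ‖z - a x‖ / R
      ≤ ‖z - a j‖ / R * 1 := by gcongr
    _ = _ := mul_one _

lemma near_norm_lt (D : Dat Ω N ρ R δ A) (ha : Near Ω a δ) (j : Fin N) : ‖a j‖ < 2 * δ := by
  have := ha.small j
  have := D.δ_pos
  linarith

lemma barrier_pole (D : Dat Ω N ρ R δ A) (ha : Near Ω a δ) (j : Fin N) :
    ∀ᶠ w in 𝓝[≠] (a j),
      barrier a ρ R δ A w ≤ ((Real.log ‖w - a j‖ + (-Real.log R) : ℝ) : EReal) := by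
  have e1 : ∀ᶠ w in 𝓝[≠] (a j), w ∈ Ω :=
    nhdsWithin_le_nhds (D.isOpen.mem_nhds (ha.mem j))
  have e2 : ∀ᶠ w in 𝓝[≠] (a j), ‖w‖ < 2 * δ :=
    nhdsWithin_le_nhds (continuous_norm.continuousAt.eventually
      (gt_mem_nhds (near_norm_lt D ha j)))
  filter_upwards [e1, e2, self_mem_nhdsWithin] with w h1 h2 h3
  have h4 : 0 < ‖w - a j‖ := norm_pos_iff.mpr (sub_ne_zero.mpr h3)
  rw [barrier_eq D ha h2]
  refine (L_le (div_pos h4 D.R_pos) (Q_le_of_pole D ha j h1)).trans (le_of_eq ?_)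
  rw [Real.log_div h4.ne' D.R_pos.ne']
  rfl

/-- the barrier is a competitor -/
lemma barrier_competitor (D : Dat Ω N ρ R δ A) (ha : Near Ω a δ) :
    Competitor Ω (range a) (barrier a ρ R δ A) where
  psh := NegPsh.of_at fun z hz => barrier_negPshAt D ha hz
  pole := by
    rintro _ ⟨j, rfl⟩
    exact ⟨_, barrier_pole D ha j⟩

end

end Pool.Agent.R234.GR
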