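import Mathlib

set_option autoImplicit false
set_option linter.unusedSectionVars false

open MeasureTheory Filter Topology Metric Set
open scoped ENNReal

namespace Pool.Agent.R234.GR

variable {E : Type*} [NormedAddCommGroup E] [ProperSpace E] [MeasurableSpace E] [BorelSpace E]

/-- local Cauchy property -/
lemma local_cauchy (μ : Measure E) [μ.IsOpenPosMeasure] [IsFiniteMeasureOnCompacts μ]
    {U : Set E} {ι : Type*} {l : Filter ι} {γ : ι → E → ℝ} {g : E → ℝ}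
    (hg : AEMeasurable g (μ.restrict U))
    (H1 : ∀ z₀ ∈ U, ∀ η : ℝ, 0 < η → ∃ r : ℝ, 0 < r ∧ ball z₀ r ⊆ U ∧
      ∀ᶠ i in l, ∀ z ∈ ball z₀ r, ∀ z' ∈ ball z₀ r, |γ i z' - γ i z| ≤ η)
    (H2 : ∀ K ⊆ U, IsCompact K → Tendsto (fun i => ∫⁻ z in K, ‖γ i z - g z‖ₑ ∂μ) l (𝓝 0))
    {z₀ : E} (hz₀ : z₀ ∈ U) {η : ℝ} (hη : 0 < η) :
    ∃ r : ℝ, 0 < r ∧ ∀ᶠ p in l ×ˢ l, ∀ z ∈ ball z₀ r, |γ p.1 z - γ p.2 z| ≤ 6 * η := by
  obtain ⟨r, hr, hrU, hosc⟩ := H1 z₀ hz₀ η hη
  refine ⟨r, hr, ?_⟩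
  set K : Set E := closedBall z₀ (r / 2) with hK
  have hKball : K ⊆ ball z₀ r := closedBall_subset_ball (by linarith)
  have hKU : K ⊆ U := hKball.trans hrU
  have hKc : IsCompact K := isCompact_closedBall _ _
  set V : ℝ≥0∞ := μ K with hV
  have hV0 : V ≠ 0 := (measure_closedBall_pos μ z₀ (by linarith)).ne'
  have hVt : V ≠ ⊤ := hKc.measure_lt_top.ne
  have hsmall : ∀ᶠ i in l, ∫⁻ z in K, ‖γ i z - g z‖ₑ ∂μ ≤ ENNReal.ofReal η * V := by
    have h1 : 0 < ENNReal.ofReal η * V :=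
      ENNReal.mul_pos (by simpa using hη) hV0
    exact ((H2 K hKU hKc).eventually (gt_mem_nhds h1)).mono fun i hi => hi.le
  have hgK : AEMeasurable g (μ.restrict K) := hg.mono_measure (Measure.restrict_mono hKU le_rfl)
  have hz₀b : z₀ ∈ ball z₀ r := mem_ball_self hr
  have hcen : ∀ᶠ i in l, ∫⁻ w in K, ‖γ i z₀ - g w‖ₑ ∂μ ≤ 2 * (ENNReal.ofReal η * V) := by
    filter_upwards [hosc, hsmall] with i h1 h2
    calc ∫⁻ w in K, ‖γ i z₀ - g w‖ₑ ∂μ
        ≤ ∫⁻ w in K, (ENNReal.ofReal η + ‖γ i w - g w‖ₑ) ∂μ := by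
          apply setLIntegral_mono' hKc.measurableSet
          intro w hw
          have h3 : γ i z₀ - g w = (γ i z₀ - γ i w) + (γ i w - g w) := by ring
          rw [h3]
          refine (enorm_add_le _ _).trans ?_
          gcongr
          rw [← ofReal_norm]
          exact ENNReal.ofReal_le_ofReal (h1 w (hKball hw) z₀ hz₀b)
      _ = ENNReal.ofReal η * V + ∫⁻ w in K, ‖γ i w - g w‖ₑ ∂μ := by
          rw [lintegral_add_left measurable_const, lintegral_const, Measure.restrict_apply_univ]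
      _ ≤ ENNReal.ofReal η * V + ENNReal.ofReal η * V := by gcongr
      _ = _ := by ring
  have hfin := (hosc.and hcen).prod_mk (hosc.and hcen)
  filter_upwards [hfin] with p hp z hz
  obtain ⟨⟨o1, c1⟩, ⟨o2, c2⟩⟩ := hp
  have h4 : ‖γ p.1 z₀ - γ p.2 z₀‖ₑ * V ≤ (4 * ENNReal.ofReal η) * V := by
    calc ‖γ p.1 z₀ - γ p.2 z₀‖ₑ * V = ∫⁻ _w in K, ‖γ p.1 z₀ - γ p.2 z₀‖ₑ ∂μ := by
          rw [lintegral_const, Measure.restrict_apply_univ]
      _ ≤ ∫⁻ w in K, (‖γ p.1 z₀ - g w‖ₑ + ‖γ p.2 z₀ - g w‖ₑ) ∂μ := by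
          apply lintegral_mono
          intro w
          have h3 : γ p.1 z₀ - γ p.2 z₀ = (γ p.1 z₀ - g w) - (γ p.2 z₀ - g w) := by ring
          simp only
          rw [h3]
          exact enorm_sub_le
      _ = ∫⁻ w in K, ‖γ p.1 z₀ - g w‖ₑ ∂μ + ∫⁻ w in K, ‖γ p.2 z₀ - g w‖ₑ ∂μ := by
          apply lintegral_add_left'
          exact (aemeasurable_const.sub hgK).enorm
      _ ≤ 2 * (ENNReal.ofReal η * V) + 2 * (ENNReal.ofReal η * V) := by gcongr
      _ = _ := by ring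
  have h5 : ‖γ p.1 z₀ - γ p.2 z₀‖ₑ ≤ 4 * ENNReal.ofReal η :=
    (ENNReal.mul_le_mul_iff_left hV0 hVt).mp h4
  have h6 : |γ p.1 z₀ - γ p.2 z₀| ≤ 4 * η := by
    rw [← ofReal_norm, show (4 : ℝ≥0∞) = ENNReal.ofReal 4 by simp,
      ← ENNReal.ofReal_mul (by norm_num)] at h5
    exact (ENNReal.ofReal_le_ofReal_iff (by positivity)).mp h5
  have h7 := o1 z₀ hz₀b z hz
  have h8 := o2 z hz z₀ hz₀b
  calc |γ p.1 z - γ p.2 z|
      = |(γ p.1 z - γ p.1 z₀) + (γ p.1 z₀ - γ p.2 z₀) + (γ p.2 z₀ - γ p.2 z)| := by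
        congr 1; ring
    _ ≤ |γ p.1 z - γ p.1 z₀| + |γ p.1 z₀ - γ p.2 z₀| + |γ p.2 z₀ - γ p.2 z| :=
        abs_add_three _ _ _
    _ ≤ η + 4 * η + η := by gcongr
    _ = 6 * η := by ring

theorem conv (μ : Measure E) [μ.IsOpenPosMeasure] [IsFiniteMeasureOnCompacts μ]
    {U : Set E} (hU : IsOpen U) {ι : Type*} {l : Filter ι} [l.NeBot] {γ : ι → E → ℝ} {g : E → ℝ}
    (hg : AEMeasurable g (μ.restrict U))
    (H1 : ∀ z₀ ∈ U, ∀ η : ℝ, 0 < η → ∃ r : ℝ, 0 < r ∧ ball z₀ r ⊆ U ∧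
      ∀ᶠ i in l, ∀ z ∈ ball z₀ r, ∀ z' ∈ ball z₀ r, |γ i z' - γ i z| ≤ η)
    (H2 : ∀ K ⊆ U, IsCompact K → Tendsto (fun i => ∫⁻ z in K, ‖γ i z - g z‖ₑ ∂μ) l (𝓝 0)) :
    ∃ g' : E → ℝ, (∀ z ∉ U, g' z = g z) ∧ μ {z | z ∈ U ∧ g' z ≠ g z} = 0 ∧ ContinuousOn g' U ∧
      ∀ K ⊆ U, IsCompact K → TendstoUniformlyOn γ g' l K := by
  classical
  have hC : ∀ K ⊆ U, IsCompact K → UniformCauchySeqOn γ l K := by
    intro K hKU hK u hu
    obtain ⟨η, hη, hηu⟩ := Metric.mem_uniformity_dist.mp hu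
    refine IsCompact.induction_on (p := fun s => ∀ᶠ m : ι × ι in l ×ˢ l, ∀ x ∈ s,
      (γ m.1 x, γ m.2 x) ∈ u) hK ?_ ?_ ?_ ?_
    · simp
    · intro s t hst ht
      filter_upwards [ht] with m hm x hx
      exact hm x (hst hx)
    · intro s t hs ht
      filter_upwards [hs, ht] with m hm1 hm2 x hx
      rcases hx with hx | hx
      · exact hm1 x hx
      · exact hm2 x hx
    · intro x hx
      obtain ⟨r, hr, h⟩ := local_cauchy μ hg H1 H2 (hKU hx) (show 0 < η / 7 by positivity)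
      refine ⟨ball x r, nhdsWithin_le_nhds (ball_mem_nhds x hr), ?_⟩
      filter_upwards [h] with m hm y hy
      apply hηu
      rw [Real.dist_eq]
      have := hm y hy
      linarith
  have hlim : ∀ z ∈ U, ∃ y : ℝ, Tendsto (fun i => γ i z) l (𝓝 y) := by
    intro z hz
    have h1 := hC {z} (by simpa using hz) isCompact_singleton
    have h2 := h1.cauchy_map (mem_singleton z)
    exact CompleteSpace.complete h2
  choose! G hG using hlim
  set g' : E → ℝ := fun z => if z ∈ U then G z else g z with hg'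
  have hgU : ∀ z ∈ U, g' z = G z := fun z hz => by rw [hg']; simp only [if_pos hz]
  have htend : ∀ z ∈ U, Tendsto (fun i => γ i z) l (𝓝 (g' z)) := fun z hz => by
    rw [hgU z hz]; exact hG z hz
  have hunif : ∀ K ⊆ U, IsCompact K → TendstoUniformlyOn γ g' l K := fun K hKU hK =>
    (hC K hKU hK).tendstoUniformlyOn_of_tendsto fun z hz => htend z (hKU hz)
  have hcont : ContinuousOn g' U := by
    intro z₀ hz₀
    apply ContinuousAt.continuousWithinAt
    rw [Metric.continuousAt_iff]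
    intro η hη
    obtain ⟨r, hr, hrU, hosc⟩ := H1 z₀ hz₀ (η / 2) (by positivity)
    refine ⟨r, hr, fun {x} hx => ?_⟩
    have h1 : |g' x - g' z₀| ≤ η / 2 := by
      have h2 : Tendsto (fun i => |γ i x - γ i z₀|) l (𝓝 |g' x - g' z₀|) :=
        ((htend x (hrU hx)).sub (htend z₀ hz₀)).abs
      refine le_of_tendsto h2 ?_
      filter_upwards [hosc] with i hi
      exact hi z₀ (mem_ball_self hr) x hx
    rw [Real.dist_eq]
    linarith
  refine ⟨g', fun z hz => by rw [hg']; simp only [if_neg hz], ?_, hcont, hunif⟩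
  apply measure_null_of_locally_null
  rintro x ⟨hx, -⟩
  obtain ⟨r, hr, hrU⟩ := Metric.isOpen_iff.mp hU x hx
  set K : Set E := closedBall x (r / 2) with hK
  have hKU : K ⊆ U := (closedBall_subset_ball (by linarith)).trans hrU
  have hKc : IsCompact K := isCompact_closedBall _ _
  have hVt : μ K ≠ ⊤ := hKc.measure_lt_top.ne
  have hint : ∫⁻ z in K, ‖g' z - g z‖ₑ ∂μ = 0 := by
    have hle : ∀ᶠ η : ℝ in 𝓝[>] 0, ∫⁻ z in K, ‖g' z - g z‖ₑ ∂μ ≤ ENNReal.ofReal η * (μ K + 1) := by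
      filter_upwards [self_mem_nhdsWithin] with η hη
      have hη : 0 < η := hη
      have h1 := (Metric.tendstoUniformlyOn_iff.mp (hunif K hKU hKc)) η hη
      have h2 := (H2 K hKU hKc).eventually
        (gt_mem_nhds (show (0 : ℝ≥0∞) < ENNReal.ofReal η by simpa using hη))
      obtain ⟨i, h3, h4⟩ := (h1.and h2).exists
      calc ∫⁻ z in K, ‖g' z - g z‖ₑ ∂μ
          ≤ ∫⁻ z in K, (ENNReal.ofReal η + ‖γ i z - g z‖ₑ) ∂μ := by
            apply setLIntegral_mono' hKc.measurableSet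
            intro w hw
            have h5 : g' w - g w = (g' w - γ i w) + (γ i w - g w) := by ring
            rw [h5]
            refine (enorm_add_le _ _).trans ?_
            gcongr
            rw [← ofReal_norm]
            have h6 := h3 w hw
            rw [Real.dist_eq, ← Real.norm_eq_abs] at h6
            exact ENNReal.ofReal_le_ofReal h6.le
        _ = ENNReal.ofReal η * μ K + ∫⁻ w in K, ‖γ i w - g w‖ₑ ∂μ := by
            rw [lintegral_add_left measurable_const, lintegral_const, Measure.restrict_apply_univ]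
        _ ≤ ENNReal.ofReal η * μ K + ENNReal.ofReal η := by gcongr
        _ = _ := by ring
    have hlim0 : Tendsto (fun η : ℝ => ENNReal.ofReal η * (μ K + 1)) (𝓝[>] 0) (𝓝 0) := by
      have h6 : Tendsto (fun η : ℝ => ENNReal.ofReal η) (𝓝[>] 0) (𝓝 0) := by
        have := (ENNReal.continuous_ofReal.tendsto 0).mono_left
          (nhdsWithin_le_nhds (s := Ioi (0 : ℝ)))
        rwa [ENNReal.ofReal_zero] at this
      have h7 := ENNReal.Tendsto.mul_const h6 (b := μ K + 1)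
        (Or.inr (ENNReal.add_ne_top.mpr ⟨hVt, by simp⟩))
      rwa [zero_mul] at h7
    exact le_antisymm (ge_of_tendsto hlim0 hle) bot_le
  have hmeas : AEMeasurable (fun z => ‖g' z - g z‖ₑ) (μ.restrict K) := by
    apply AEMeasurable.enorm
    exact ((hcont.mono hKU).aemeasurable hKc.measurableSet).sub
      (hg.mono_measure (Measure.restrict_mono hKU le_rfl))
  rw [lintegral_eq_zero_iff' hmeas] at hint
  have h8 : ∀ᵐ z ∂μ.restrict K, g' z = g z := by
    filter_upwards [hint] with z hz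
    simp only [Pi.zero_apply, enorm_eq_zero] at hz
    linarith
  rw [ae_restrict_iff' hKc.measurableSet] at h8
  refine ⟨{z | z ∈ U ∧ g' z ≠ g z} ∩ K, ?_, ?_⟩
  · rw [inter_comm]
    exact inter_mem (nhdsWithin_le_nhds (closedBall_mem_nhds x (by linarith))) self_mem_nhdsWithin
  · refine measure_mono_null ?_ h8
    rintro z ⟨⟨h9, h10⟩, h11⟩
    simp only [mem_compl_iff, mem_ofPred_eq]
    intro h12
    exact h10 (h12 h11)

end Pool.Agent.R234.GR
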