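import Pool.Agent.R234.GR.C

set_option autoImplicit false
set_option linter.unusedSectionVars false

open MeasureTheory Filter Topology Metric Set Real
open scoped ENNReal

namespace Pool.Agent.R234.GR

variable {E : Type*} [NormedAddCommGroup E] [InnerProductSpace ℂ E]

/-- the scalar polynomial vanishing at the poles -/
noncomputable def P {N : ℕ} (a : Fin N → E) (R : ℝ) (e : E) (z : E) : ℂ :=
  ∏ j, (inner ℂ e (z - a j) / (R : ℂ))

/-- the polynomial perturbation of the identity fixing the poles -/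
noncomputable def F {N : ℕ} (a : Fin N → E) (R : ℝ) (e b : E) (z : E) : E := z + P a R e z • b

section
variable {Ω : Set E} {N : ℕ} {ρ : E → ℝ} {R δ A : ℝ} {a : Fin N → E} {e b : E}

lemma analyticAt_F (z : E) : AnalyticAt ℂ (F a R e b) z := by
  have h1 : AnalyticAt ℂ (P a R e) z := by
    unfold P
    apply Finset.analyticAt_fun_prod
    intro j _
    apply AnalyticAt.div_const
    exact ((innerSL ℂ e).analyticAt _).comp (analyticAt_id.sub analyticAt_const)
  unfold F
  exact analyticAt_id.add (h1.smul analyticAt_const)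

lemma P_pole (j : Fin N) : P a R e (a j) = 0 := by
  unfold P
  apply Finset.prod_eq_zero (Finset.mem_univ j)
  simp

lemma F_pole (j : Fin N) : F a R e b (a j) = a j := by
  unfold F
  rw [P_pole, zero_smul, add_zero]

lemma norm_factor_le (hR : 0 < R) (he : ‖e‖ ≤ 1) (z : E) (j : Fin N) :
    ‖inner ℂ e (z - a j) / (R : ℂ)‖ ≤ ‖z - a j‖ / R := by
  rw [norm_div, Complex.norm_real, Real.norm_of_nonneg hR.le]
  have := norm_inner_le_norm (𝕜 := ℂ) e (z - a j)
  have h1 : ‖e‖ * ‖z - a j‖ ≤ 1 * ‖z - a j‖ := by gcongr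
  gcongr
  linarith

lemma norm_P_le_Q (hR : 0 < R) (he : ‖e‖ ≤ 1) (z : E) : ‖P a R e z‖ ≤ Q a R z := by
  unfold P Q
  rw [norm_prod]
  exact Finset.prod_le_prod (fun j _ => norm_nonneg _) (fun j _ => norm_factor_le hR he z j)

lemma norm_F_sub_le (D : Dat Ω N ρ R δ A) (ha : Near Ω a δ) (he : ‖e‖ ≤ 1) {z : E} (hz : z ∈ Ω) :
    ‖F a R e b z - z‖ ≤ ‖b‖ := by
  unfold F
  rw [add_sub_cancel_left, norm_smul]
  have h1 : ‖P a R e z‖ ≤ 1 := (norm_P_le_Q D.R_pos he z).trans (Q_lt_one D ha hz).le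
  calc ‖P a R e z‖ * ‖b‖ ≤ 1 * ‖b‖ := by gcongr
    _ = ‖b‖ := one_mul _

lemma norm_F_sub_le' (D : Dat Ω N ρ R δ A) (ha : Near Ω a δ) (he : ‖e‖ ≤ 1) {z : E} (hz : z ∈ Ω)
    (j : Fin N) (hb : ‖b‖ ≤ R / 2) : ‖F a R e b z - z‖ ≤ ‖z - a j‖ / 2 := by
  unfold F
  rw [add_sub_cancel_left, norm_smul]
  have h1 : ‖P a R e z‖ ≤ ‖z - a j‖ / R := (norm_P_le_Q D.R_pos he z).trans
    (Q_le_of_pole D ha j hz)
  have hR := D.R_pos
  calc ‖P a R e z‖ * ‖b‖ ≤ (‖z - a j‖ / R) * (R / 2) := by gcongr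
    _ = ‖z - a j‖ / 2 := by field_simp

open Classical in
/-- the glued function -/
noncomputable def glue (Ω : Set E) (a : Fin N → E) (ρ : E → ℝ) (R δ A η : ℝ) (e b : E)
    (u : E → EReal) (z : E) : EReal :=
  if F a R e b z ∈ Ω then max (u (F a R e b z) - (η : EReal)) (barrier a ρ R δ A z)
  else barrier a ρ R δ A z

/-- the compact set off which the barrier is at least `-η` -/
lemma exists_d (D : Dat Ω N ρ R δ A) {η : ℝ} (hη : 0 < η) :
    ∃ K : Set E, ∃ d : ℝ, 0 < d ∧ d ≤ R / 2 ∧ IsClosed K ∧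
      (∀ x ∈ K, ∀ y, ‖y - x‖ < d → y ∈ Ω) ∧
      (∀ a : Fin N → E, ∀ x ∈ Ω, x ∉ K → ((-η : ℝ) : EReal) ≤ barrier a ρ R δ A x) := by
  set K₁ : Set E := {z | z ∈ Ω ∧ ρ z ≤ -η / A} with hK₁
  have hc : -η / A < 0 := by
    have := div_pos hη D.A_pos
    rw [neg_div]; linarith
  have h1 : IsCompact K₁ := D.ρ_cpt _ hc
  have hδ := D.δ_pos
  obtain ⟨d₁, hd₁, hd₁'⟩ := h1.exists_thickening_subset_open D.isOpen (fun z hz => hz.1)
  refine ⟨K₁ ∪ closedBall 0 δ, min (min d₁ δ) (R / 2), ?_, min_le_right _ _,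
    h1.isClosed.union isClosed_closedBall, ?_, ?_⟩
  · exact lt_min (lt_min hd₁ hδ) (by linarith [D.R_pos])
  · rintro x (hx | hx) y hy
    · apply hd₁'
      rw [mem_thickening_iff]
      exact ⟨x, hx, by
        rw [dist_eq_norm]
        exact hy.trans_le ((min_le_left _ _).trans (min_le_left _ _))⟩
    · apply D.ball_sub
      rw [mem_closedBall_zero_iff] at hx ⊢
      have h2 : ‖y - x‖ < δ := hy.trans_le ((min_le_left _ _).trans (min_le_right _ _))
      have h3 := norm_sub_norm_le y x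
      linarith
  · intro a x hx hxK
    simp only [mem_union, not_or, hK₁, mem_ofPred_eq, mem_closedBall_zero_iff, not_le,
      not_and] at hxK
    obtain ⟨h2, h3⟩ := hxK
    refine le_trans ?_ (rho_le_barrier h3.le)
    have h4 := h2 hx
    have h5 : -η ≤ A * ρ x := by
      rw [div_lt_iff₀ D.A_pos] at h4
      linarith [mul_comm A (ρ x)]
    exact_mod_cast h5

lemma glue_competitor (D : Dat Ω N ρ R δ A) (ha : Near Ω a δ) (he : ‖e‖ ≤ 1) {η : ℝ}
    (hη : 0 < η) {K : Set E} {d : ℝ} (hdR : d ≤ R / 2) (hKc : IsClosed K)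
    (hK : ∀ x ∈ K, ∀ y, ‖y - x‖ < d → y ∈ Ω)
    (hKb : ∀ a : Fin N → E, ∀ x ∈ Ω, x ∉ K → ((-η : ℝ) : EReal) ≤ barrier a ρ R δ A x)
    (hb : ‖b‖ < d) {u : E → EReal} (hu : Competitor Ω (range a) u) :
    Competitor Ω (range a) (glue Ω a ρ R δ A η e b u) where
  psh := by
    refine NegPsh.of_at fun z hz => ?_
    have hFc : ContinuousAt (F a R e b) z := (analyticAt_F z).continuousAt
    by_cases hF : F a R e b z ∈ Ω
    · have h1 : NegPshAt (fun w => u (F a R e b w)) z :=
        NegPshAt.comp (analyticAt_F z) (hu.psh.at D.isOpen hF)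
      refine ((h1.sub_const hη.le).max (barrier_negPshAt D ha hz)).congr ?_
      filter_upwards [hFc.eventually (D.isOpen.mem_nhds hF)] with w hw
      have hw' : F a R e b w ∈ Ω := hw
      unfold glue
      rw [if_pos hw']
    · refine (barrier_negPshAt D ha hz).congr ?_
      have hzK : z ∉ K := fun h => hF (hK z h _ ((norm_F_sub_le D ha he hz).trans_lt hb))
      filter_upwards [hKc.isOpen_compl.mem_nhds hzK, D.isOpen.mem_nhds hz] with w hw hwΩ
      unfold glue
      split_ifs with h2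
      · symm
        apply max_eq_right
        refine le_trans ?_ (hKb a w hwΩ hw)
        have h3 := hu.psh.neg _ h2
        calc u (F a R e b w) - (η : EReal) ≤ 0 - (η : EReal) := by
              exact EReal.sub_le_sub h3.le le_rfl
          _ = ((-η : ℝ) : EReal) := by simp
      · rfl
  pole := by
    rintro _ ⟨j, rfl⟩
    obtain ⟨C, hC⟩ := hu.pole (a j) ⟨j, rfl⟩
    refine ⟨max (C + Real.log 2) (-Real.log R), ?_⟩
    have e1 : ∀ᶠ w in 𝓝[≠] (a j), w ∈ Ω :=
      nhdsWithin_le_nhds (D.isOpen.mem_nhds (ha.mem j))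
    have hest : ∀ w ∈ Ω, ‖F a R e b w - w‖ ≤ ‖w - a j‖ / 2 := fun w hw =>
      norm_F_sub_le' D ha he hw j (hb.le.trans hdR)
    have htend : Tendsto (F a R e b) (𝓝[≠] (a j)) (𝓝[≠] (a j)) := by
      apply tendsto_nhdsWithin_of_tendsto_nhds_of_eventually_within
      · have := (analyticAt_F (a := a) (R := R) (e := e) (b := b) (a j)).continuousAt.tendsto
        rw [F_pole] at this
        exact this.mono_left nhdsWithin_le_nhds
      · filter_upwards [e1, self_mem_nhdsWithin] with w hw hne hFw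
        have h1 := hest w hw
        have h2 : 0 < ‖w - a j‖ := norm_pos_iff.mpr (sub_ne_zero.mpr hne)
        rw [hFw, norm_sub_rev] at h1
        linarith
    filter_upwards [e1, self_mem_nhdsWithin, htend.eventually hC, htend self_mem_nhdsWithin,
      barrier_pole D ha j] with w h1 h2 h3 h4 h5
    have hw0 : 0 < ‖w - a j‖ := norm_pos_iff.mpr (sub_ne_zero.mpr h2)
    have hF0 : 0 < ‖F a R e b w - a j‖ := norm_pos_iff.mpr (sub_ne_zero.mpr h4)
    have h6 : barrier a ρ R δ A w ≤
        ((Real.log ‖w - a j‖ + max (C + Real.log 2) (-Real.log R) : ℝ) : EReal) := by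
      refine h5.trans ?_
      have : Real.log ‖w - a j‖ + -Real.log R ≤
        Real.log ‖w - a j‖ + max (C + Real.log 2) (-Real.log R) := by
        gcongr; exact le_max_right _ _
      exact_mod_cast this
    unfold glue
    split_ifs with h7
    · apply max_le _ h6
      have h8 : ‖F a R e b w - a j‖ ≤ 2 * ‖w - a j‖ := by
        have h9 := hest w h1
        have h10 : F a R e b w - a j = (F a R e b w - w) + (w - a j) := by abel
        rw [h10]
        refine (norm_add_le _ _).trans ?_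
        linarith
      calc u (F a R e b w) - (η : EReal) ≤ u (F a R e b w) := by
            rw [EReal.sub_le_iff_le_add (by simp) (by simp)]
            exact le_add_of_nonneg_right (by exact_mod_cast hη.le)
        _ ≤ ((Real.log ‖F a R e b w - a j‖ + C : ℝ) : EReal) := h3
        _ ≤ _ := by
          have h11 : Real.log ‖F a R e b w - a j‖ ≤ Real.log 2 + Real.log ‖w - a j‖ := by
            rw [← Real.log_mul (by norm_num) hw0.ne']
            exact Real.log_le_log hF0 h8
          have h12 : C + Real.log 2 ≤ max (C + Real.log 2) (-Real.log R) := le_max_left _ _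
          have : Real.log ‖F a R e b w - a j‖ + C ≤
            Real.log ‖w - a j‖ + max (C + Real.log 2) (-Real.log R) := by linarith
          exact_mod_cast this
    · exact h6

/-- the comparison inequality -/
lemma green_comp_le (D : Dat Ω N ρ R δ A) {η : ℝ} (hη : 0 < η) :
    ∃ d : ℝ, 0 < d ∧ ∀ (a : Fin N → E), Near Ω a δ → ∀ e b : E, ‖e‖ ≤ 1 → ‖b‖ < d →
      ∀ z ∈ Ω, F a R e b z ∈ Ω →
      green Ω (range a) (F a R e b z) ≤ green Ω (range a) z + (η : EReal) := by
  obtain ⟨K, d, hd, hdR, hKc, hK, hKb⟩ := exists_d D hη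
  refine ⟨d, hd, fun a ha e b he hb z hz hFz => ?_⟩
  conv_lhs => unfold green
  refine iSup₂_le fun u hu => ?_
  rw [← EReal.sub_le_iff_le_add (by simp) (by simp)]
  have h1 := glue_competitor D ha he hη hdR hKc hK hKb hb hu
  have h2 : glue Ω a ρ R δ A η e b u z ≤ green Ω (range a) z :=
    le_iSup₂_of_le (glue Ω a ρ R δ A η e b u) h1 le_rfl
  refine le_trans ?_ h2
  unfold glue
  rw [if_pos hFz]
  exact le_max_left _ _

end

end Pool.Agent.R234.GR
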