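import Mathlib

/-! Pluricomplex Green functions with several poles. -/

set_option autoImplicit false

open MeasureTheory Filter Topology Metric Set Real
open scoped ENNReal

namespace Pool.Agent.R234.GR

variable {E : Type*} [NormedAddCommGroup E] [NormedSpace ℂ E]

/-- The sub-mean value inequality `u (f 0) ≤ (1/2π) ∫ u (f (r e^{iθ})) dθ`, for a function `u` with
values in `[-∞, 0]`, written for `-u ≥ 0` with the Lebesgue integral of `[0, ∞]`-valued
functions: `∫ (-u) (f (r e^{iθ})) dθ ≤ 2π · (-u) (f 0)`. -/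
def SubMean (u : E → EReal) (f : ℂ → E) (r : ℝ) : Prop :=
  ∫⁻ θ in Ioc 0 (2 * π), (-(u (f (circleMap 0 r θ)))).toENNReal ≤
    ENNReal.ofReal (2 * π) * (-(u (f 0))).toENNReal

/-- `u` is a negative plurisubharmonic function on the open set `Ω`, with values in `[-∞, 0)`:
it is upper semicontinuous and subharmonic along every holomorphic disc, that is, for every germ
`f` of a holomorphic map of one variable with values in `Ω`, the local sub-mean value
inequality holds. -/
structure NegPsh (Ω : Set E) (u : E → EReal) : Prop where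
  neg : ∀ z ∈ Ω, u z < 0
  usc : UpperSemicontinuousOn u Ω
  submean : ∀ f : ℂ → E, AnalyticAt ℂ f 0 → f 0 ∈ Ω → ∀ᶠ r in 𝓝[>] (0 : ℝ), SubMean u f r

/-- `Ω` is hyperconvex: it has a negative continuous plurisubharmonic exhaustion function `ρ`
(all sets `{ρ ≤ c}`, `c < 0`, are compact subsets of `Ω`). -/
def Hyperconvex (Ω : Set E) : Prop :=
  ∃ ρ : E → ℝ, ContinuousOn ρ Ω ∧ NegPsh Ω (fun z => (ρ z : EReal)) ∧
    ∀ c : ℝ, c < 0 → IsCompact {z | z ∈ Ω ∧ ρ z ≤ c}

/-- The functions in the definition of the Green function: negative and plurisubharmonic on `Ω`,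
with `u w ≤ log ‖w - a‖ + O(1)` as `w → a`, for every `a ∈ S`. -/
structure Competitor (Ω S : Set E) (u : E → EReal) : Prop where
  psh : NegPsh Ω u
  pole : ∀ a ∈ S, ∃ C : ℝ, ∀ᶠ w in 𝓝[≠] a, u w ≤ ((Real.log ‖w - a‖ + C : ℝ) : EReal)

/-- The pluricomplex Green function of `Ω` with poles at the points of `S`. -/
noncomputable def green (Ω S : Set E) (z : E) : EReal :=
  ⨆ (u : E → EReal) (_ : Competitor Ω S u), u z

end Pool.Agent.R234.GR
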