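import Pool.Agent.R234.GR.D

set_option autoImplicit false
set_option linter.unusedSectionVars false

open MeasureTheory Filter Topology Metric Set Real
open scoped ENNReal

namespace Pool.Agent.R234.GR

variable {E : Type*} [NormedAddCommGroup E] [InnerProductSpace ℂ E]
variable {Ω : Set E} {N : ℕ} {ρ : E → ℝ} {R δ A : ℝ} {a : Fin N → E}

lemma green_le_zero {S : Set E} {z : E} (hz : z ∈ Ω) : green Ω S z ≤ 0 :=
  iSup₂_le fun _ hu => (hu.psh.neg z hz).le

lemma L_le_green (D : Dat Ω N ρ R δ A) (ha : Near Ω a δ) (z : E) :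
    L a R z ≤ green Ω (range a) z :=
  (L_le_barrier (ρ := ρ) (δ := δ) (A := A) z).trans
    (le_iSup₂_of_le (barrier a ρ R δ A) (barrier_competitor D ha) le_rfl)

lemma green_ne_bot (D : Dat Ω N ρ R δ A) (ha : Near Ω a δ) {z : E} (hz : ∀ j, z ≠ a j) :
    green Ω (range a) z ≠ ⊥ := by
  have hQ : 0 < Q a R z := by
    unfold Q
    apply Finset.prod_pos
    intro j _
    exact div_pos (norm_pos_iff.mpr (sub_ne_zero.mpr (hz j))) D.R_pos
  have h1 := L_le_green D ha z
  rw [L_of_pos hQ] at h1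
  intro h
  rw [h] at h1
  exact absurd h1 (by simp)

lemma green_ne_top {S : Set E} {z : E} (hz : z ∈ Ω) :
    green Ω S z ≠ ⊤ := by
  intro h
  have := green_le_zero (Ω := Ω) (S := S) hz
  rw [h] at this
  exact absurd this (by simp)

/-- uniform equicontinuity away from the origin -/
lemma equicont (D : Dat Ω N ρ R δ A) {z₀ : E} (hz₀ : z₀ ∈ Ω) (h0 : z₀ ≠ 0) {η : ℝ} (hη : 0 < η) :
    ∃ r : ℝ, 0 < r ∧ r ≤ ‖z₀‖ / 4 ∧ ball z₀ r ⊆ Ω ∧ ∀ a : Fin N → E, Near Ω a δ →
      (∀ j, ‖a j‖ ≤ ‖z₀‖ / 4) → ∀ z ∈ ball z₀ r, ∀ z' ∈ ball z₀ r,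
      |(green Ω (range a) z').toReal - (green Ω (range a) z).toReal| ≤ η := by
  obtain ⟨d, hd, hcomp⟩ := green_comp_le D hη
  obtain ⟨r₀, hr₀, hr₀'⟩ := Metric.isOpen_iff.mp D.isOpen z₀ hz₀
  have hn : 0 < ‖z₀‖ := norm_pos_iff.mpr h0
  have hR := D.R_pos
  set c : ℝ := (‖z₀‖ / (2 * R)) ^ N with hc
  have hc0 : 0 < c := by positivity
  set r : ℝ := min r₀ (min (‖z₀‖ / 4) (d * c / 4)) with hr
  have hr1 : r ≤ r₀ := min_le_left _ _
  have hr2 : r ≤ ‖z₀‖ / 4 := (min_le_right _ _).trans (min_le_left _ _)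
  have hr3 : r ≤ d * c / 4 := (min_le_right _ _).trans (min_le_right _ _)
  have hr0 : 0 < r := lt_min hr₀ (lt_min (by positivity) (by positivity))
  have hsub : ball z₀ r ⊆ Ω := (ball_subset_ball hr1).trans hr₀'
  refine ⟨r, hr0, hr2, hsub, fun a ha hsm => ?_⟩
  set e : E := ((‖z₀‖ : ℂ)⁻¹) • z₀ with he
  have he1 : ‖e‖ = 1 := by
    rw [he, norm_smul, norm_inv, Complex.norm_real, norm_norm, inv_mul_cancel₀ hn.ne']
  have hez : ‖inner ℂ e z₀‖ = ‖z₀‖ := by
    rw [he, inner_smul_left, inner_self_eq_norm_sq_to_K, norm_mul, norm_pow]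
    simp only [map_inv₀, Complex.conj_ofReal, norm_inv, Complex.norm_real, norm_norm,
      RCLike.norm_ofReal, abs_norm]
    field_simp
  have hP : ∀ z ∈ ball z₀ r, c ≤ ‖P a R e z‖ := by
    intro z hz
    rw [mem_ball, dist_eq_norm] at hz
    unfold P
    rw [norm_prod, hc]
    have h3 : ∏ _j : Fin N, (‖z₀‖ / (2 * R)) = (‖z₀‖ / (2 * R)) ^ N := by
      rw [Finset.prod_const, Finset.card_univ, Fintype.card_fin]
    rw [← h3]
    apply Finset.prod_le_prod
    · intro j _; positivity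
    · intro j _
      rw [norm_div, Complex.norm_real, Real.norm_of_nonneg hR.le]
      have h4 : inner ℂ e (z - a j) = inner ℂ e z₀ - inner ℂ e (a j - (z - z₀)) := by
        rw [← inner_sub_right]; congr 1; abel
      have h5 : ‖inner ℂ e (a j - (z - z₀))‖ ≤ ‖z₀‖ / 2 := by
        refine (norm_inner_le_norm _ _).trans ?_
        rw [he1, one_mul]
        refine (norm_sub_le _ _).trans ?_
        linarith [hsm j]
      have h6 := norm_sub_norm_le (inner ℂ e z₀) (inner ℂ e (a j - (z - z₀)))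
      rw [h4, div_le_div_iff₀ (by positivity) hR]
      rw [hez] at h6
      nlinarith
  have key : ∀ z ∈ ball z₀ r, ∀ z' ∈ ball z₀ r,
      green Ω (range a) z' ≤ green Ω (range a) z + (η : EReal) := by
    intro z hz z' hz'
    have hP0 : P a R e z ≠ 0 := norm_pos_iff.mp (hc0.trans_le (hP z hz))
    have hF : F a R e ((P a R e z)⁻¹ • (z' - z)) z = z' := by
      unfold F
      rw [smul_smul, mul_inv_cancel₀ hP0, one_smul]; abel
    have hb : ‖(P a R e z)⁻¹ • (z' - z)‖ < d := by
      rw [norm_smul, norm_inv, inv_mul_lt_iff₀ (hc0.trans_le (hP z hz))]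
      have h7 : ‖z' - z‖ < 2 * r := by
        rw [mem_ball, dist_eq_norm] at hz hz'
        have : z' - z = (z' - z₀) - (z - z₀) := by abel
        rw [this]
        refine (norm_sub_le _ _).trans_lt ?_
        linarith
      have h8 : c * d ≤ ‖P a R e z‖ * d := by
        have := hP z hz
        gcongr
      nlinarith [mul_pos hd hc0]
    have := hcomp a ha e _ he1.le hb z (hsub hz) (by rw [hF]; exact hsub hz')
    rwa [hF] at this
  have hne : ∀ z ∈ ball z₀ r, green Ω (range a) z ≠ ⊥ := by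
    intro z hz
    apply green_ne_bot D ha
    intro j hj
    rw [mem_ball, dist_eq_norm] at hz
    have h9 := hsm j
    rw [← hj] at h9
    have h10 := norm_sub_norm_le z₀ z
    rw [norm_sub_rev] at h10
    linarith
  have hreal : ∀ z ∈ ball z₀ r, ((green Ω (range a) z).toReal : EReal) = green Ω (range a) z :=
    fun z hz => EReal.coe_toReal (green_ne_top (hsub hz)) (hne z hz)
  intro z hz z' hz'
  have k1 := key z hz z' hz'
  have k2 := key z' hz' z hz
  rw [← hreal z hz, ← hreal z' hz'] at k1 k2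
  have k1' : (green Ω (range a) z').toReal ≤ (green Ω (range a) z).toReal + η := by
    exact_mod_cast k1
  have k2' : (green Ω (range a) z).toReal ≤ (green Ω (range a) z').toReal + η := by
    exact_mod_cast k2
  rw [abs_le]
  constructor <;> linarith

end Pool.Agent.R234.GR
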