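import Pool.Agent.R234.GR.E
import Pool.Agent.R234.GR.Conv

set_option autoImplicit false
set_option linter.unusedSectionVars false

open MeasureTheory Filter Topology Metric Set Real
open scoped ENNReal

namespace Pool.Agent.R234.GR

variable {E : Type*} [NormedAddCommGroup E] [InnerProductSpace ℂ E] [ProperSpace E]

lemma exists_dat {Ω : Set E} (hΩ : IsOpen Ω) (hb : Bornology.IsBounded Ω) (h0 : (0 : E) ∈ Ω)
    (hh : Hyperconvex Ω) {N : ℕ} (hN : 1 ≤ N) :
    ∃ (ρ : E → ℝ) (R δ A : ℝ), Dat Ω N ρ R δ A := by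
  obtain ⟨ρ, hρ1, hρ2, hρ3⟩ := hh
  obtain ⟨C, hC⟩ := Metric.isBounded_iff.mp hb
  obtain ⟨ε, hε, hεΩ⟩ := Metric.isOpen_iff.mp hΩ 0 h0
  have hC0 : 0 ≤ C := by
    have := hC h0 h0
    rwa [dist_self] at this
  set R : ℝ := C + 1 with hR
  have hR0 : 0 < R := by linarith
  set δ : ℝ := ε / 4 with hδ
  have hδ0 : 0 < δ := by positivity
  have hsub : closedBall (0 : E) (2 * δ) ⊆ Ω :=
    (closedBall_subset_ball (by linarith)).trans hεΩ
  obtain ⟨x, hx, hmax⟩ := (isCompact_closedBall (0 : E) (2 * δ)).exists_isMaxOn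
    ⟨0, mem_closedBall_self (by positivity)⟩ (hρ1.mono hsub)
  have hm : ρ x < 0 := by
    have := hρ2.neg x (hsub hx)
    exact_mod_cast this
  set q : ℝ := Real.log ((δ / (2 * R)) ^ N) with hq
  refine ⟨ρ, R, δ, (|q| + 1) / (-ρ x), ?_⟩
  constructor
  · exact hΩ
  · exact hN
  · exact hR0
  · intro z hz w hw
    have := hC hz hw
    rw [dist_eq_norm] at this
    linarith
  · exact h0
  · exact hδ0
  · exact hsub
  · exact hρ1
  · exact hρ2
  · exact hρ3
  · exact div_pos (by positivity) (by linarith)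
  · intro w hw
    have h1 : ρ w ≤ ρ x := hmax hw
    have h2 : 0 < (|q| + 1) / (-ρ x) := div_pos (by positivity) (by linarith)
    calc (|q| + 1) / (-ρ x) * ρ w ≤ (|q| + 1) / (-ρ x) * ρ x := by gcongr
      _ = -(|q| + 1) := by
          have : ρ x ≠ 0 := hm.ne
          field_simp
      _ < q := by linarith [neg_abs_le q]

/-- the main theorem -/
theorem main [MeasurableSpace E] [BorelSpace E] (μ : Measure E) [μ.IsOpenPosMeasure]
    [IsFiniteMeasureOnCompacts μ] {Ω : Set E} (hΩ : IsOpen Ω) (hb : Bornology.IsBounded Ω)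
    (h0 : (0 : E) ∈ Ω) (hh : Hyperconvex Ω) {N : ℕ} (hN : 1 ≤ N) {a : ℝ → Fin N → E}
    (hlim : ∀ j, Tendsto (fun ε => a ε j) (𝓝[>] 0) (𝓝 0)) {g : E → ℝ}
    (hg : AEMeasurable g (μ.restrict Ω))
    (hconv : ∀ K ⊆ Ω, IsCompact K → Tendsto
      (fun ε => ∫⁻ z in K, ‖(green Ω (range (a ε)) z).toReal - g z‖ₑ ∂μ) (𝓝[>] 0) (𝓝 0)) :
    ∃ g' : E → ℝ, (∀ᵐ z ∂μ.restrict Ω, g' z = g z) ∧ ContinuousOn g' (Ω \ {0}) ∧
      ∀ K ⊆ Ω \ {0}, IsCompact K →
        (∀ᶠ ε in 𝓝[>] (0 : ℝ), ∀ z ∈ K, green Ω (range (a ε)) z ≠ ⊥ ∧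
          green Ω (range (a ε)) z ≠ ⊤) ∧
        TendstoUniformlyOn (fun ε z => (green Ω (range (a ε)) z).toReal) g' (𝓝[>] 0) K := by
  obtain ⟨ρ, R, δ, A, D⟩ := exists_dat hΩ hb h0 hh hN
  have hU : IsOpen (Ω \ {0}) := hΩ.sdiff isClosed_singleton
  have hnear : ∀ κ : ℝ, 0 < κ → ∀ᶠ ε in 𝓝[>] (0 : ℝ), ∀ j, ‖a ε j‖ < κ := by
    intro κ hκ
    rw [eventually_all]
    intro j
    have := (hlim j).norm.eventually (gt_mem_nhds (show ‖(0 : E)‖ < κ by rwa [norm_zero]))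
    exact this
  have hNear : ∀ᶠ ε in 𝓝[>] (0 : ℝ), Near Ω (a ε) δ := by
    filter_upwards [hnear (δ / 2) (by have := D.δ_pos; positivity)] with ε hε
    refine ⟨fun j => D.ball_sub ?_, fun j => (hε j).le⟩
    rw [mem_closedBall_zero_iff]
    have := D.δ_pos
    linarith [hε j]
  obtain ⟨g', h1, h2, h3, h4⟩ := conv (μ := μ) (l := 𝓝[>] (0 : ℝ))
    (γ := fun ε z => (green Ω (range (a ε)) z).toReal) (g := g) hU
    (hg.mono_measure (Measure.restrict_mono sdiff_subset le_rfl))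
    (by
      intro z₀ hz₀ η hη
      obtain ⟨r, hr, hr4, hrΩ, H⟩ := equicont D hz₀.1 hz₀.2 hη
      refine ⟨r, hr, ?_, ?_⟩
      · intro z hz
        refine ⟨hrΩ hz, ?_⟩
        rintro rfl
        rw [mem_ball, dist_eq_norm, zero_sub, norm_neg] at hz
        have : 0 < ‖z₀‖ := norm_pos_iff.mpr hz₀.2
        linarith
      · filter_upwards [hNear, hnear (‖z₀‖ / 4)
          (by have := norm_pos_iff.mpr hz₀.2; positivity)] with ε hε1 hε2
        exact H (a ε) hε1 fun j => (hε2 j).le)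
    (fun K hK hKc => hconv K (hK.trans sdiff_subset) hKc)
  refine ⟨g', ?_, h3, fun K hK hKc => ⟨?_, h4 K hK hKc⟩⟩
  · rw [ae_restrict_iff' hΩ.measurableSet]
    refine measure_mono_null ?_ h2
    intro z hz
    simp only [mem_compl_iff, mem_ofPred_eq, Classical.not_imp] at hz
    refine ⟨?_, hz.2⟩
    by_contra hcon
    exact hz.2 (h1 z hcon)
  · -- finiteness
    rcases K.eq_empty_or_nonempty with rfl | hne
    · simp
    · obtain ⟨x, hx, hmin⟩ := hKc.exists_isMinOn hne continuous_norm.continuousOn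
      have hx0 : 0 < ‖x‖ := norm_pos_iff.mpr (hK hx).2
      filter_upwards [hNear, hnear ‖x‖ hx0] with ε hε1 hε2 z hz
      refine ⟨green_ne_bot D hε1 fun j hj => ?_, green_ne_top (hK hz).1⟩
      have h5 : ‖x‖ ≤ ‖z‖ := hmin hz
      have h6 := hε2 j
      rw [← hj] at h6
      linarith

end Pool.Agent.R234.GR
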